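import Pool.Agent.MP_3fd3f5_an.Mg.Main

namespace Pool.Agent.Results.MP_3fd3f5_an.NoTauberian

open Filter Topology Pool.Agent.MP_3fd3f5_an

/-- A finite game with public signals and an initial law for which all vanishing-duration limits
`V lam` and `W T` exist, `V lam` converges as `lam → 0`, and `W T` diverges as `T → ∞`. -/
theorem result : ∃ (A Ω I J : Type) (_ : Fintype A) (_ : Fintype Ω) (_ : DecidableEq Ω)
    (_ : Fintype I) (_ : Fintype J) (_ : Nonempty A) (_ : Nonempty Ω) (_ : Nonempty I)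
    (_ : Nonempty J) (G : Game A Ω I J) (p : stdSimplex ℝ Ω) (V W : ℝ → ℝ),
    (∀ lam ∈ Set.Ioo (0 : ℝ) 1, G.IsDiscLimit p lam (V lam)) ∧
    (∀ T > 0, G.IsHorLimit p T (W T)) ∧
    (∃ l, Tendsto V (𝓝[>] 0) (𝓝 l)) ∧ ¬ ∃ l, Tendsto W atTop (𝓝 l) := by
  obtain ⟨V, hV, hVl⟩ := Ex.exists_V
  obtain ⟨W, hW, hWl⟩ := Ex.exists_W
  exact ⟨Ex.Sg, Ex.St, Bool, Bool, inferInstance, inferInstance, inferInstance, inferInstance,
    inferInstance, inferInstance, inferInstance, inferInstance, inferInstance, Ex.game, Ex.p0,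
    V, W, hV, hW, ⟨_, hVl⟩, hWl⟩

end Pool.Agent.Results.MP_3fd3f5_an.NoTauberian
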