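import Pool.Agent.MP_3fd3f5_an.Mg.H78_Main

namespace Pool.Agent.Results.MP_3fd3f5_an.UniformTauberian

open Filter Topology Pool.Agent.MP_3fd3f5_an

/-- In every finite game with public signals the vanishing-duration limits `V lam p`, `W T p`
exist, and `V lam` converges to `v` as `lam → 0` if and only if `W T` converges to `v` as
`T → ∞`, both for uniform convergence in `p` and for convergence at all `p`. -/
theorem result {A Ω I J : Type} [Fintype A] [Fintype Ω] [DecidableEq Ω] [Fintype I] [Fintype J]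
    [Nonempty I] [Nonempty J] (G : Game A Ω I J) : ∃ V W : ℝ → stdSimplex ℝ Ω → ℝ,
    (∀ lam ∈ Set.Ioo (0 : ℝ) 1, ∀ p, G.IsDiscLimit p lam (V lam p)) ∧
    (∀ T > 0, ∀ p, G.IsHorLimit p T (W T p)) ∧ ∀ v : stdSimplex ℝ Ω → ℝ, List.TFAE
      [TendstoUniformly V v (𝓝[>] 0), TendstoUniformly W v atTop,
        ∀ p, Tendsto (fun lam => V lam p) (𝓝[>] 0) (𝓝 (v p)),
        ∀ p, Tendsto (fun T => W T p) atTop (𝓝 (v p))] :=
  H78.main G

end Pool.Agent.Results.MP_3fd3f5_an.UniformTauberian
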